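import Pool.Agent.Y835.SD.Core
import Pool.Agent.Y835.SC.Fin4

/-!
Squares of sieve weights supported on the classes of Erdős-Rankin coverings.
-/

set_option autoImplicit false

namespace Pool.Agent.Y835.SD

open Finset Pool.Agent.Y835.SB Pool.Agent.Y835.SC

/-- the primes between `log R` and a little more -/
theorem mid_sum : ∃ C : ℝ, 0 < C ∧ ∀ (l : ℝ) (w : ℕ), 4 ≤ l → 1 ≤ Real.log (Real.log l) →
    (w : ℝ) ≤ l * Real.log l ^ 4 → ∀ Q : Finset ℕ, (∀ p ∈ Q, p.Prime ∧ l < (p : ℝ) ∧ p ≤ w) →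
    ∑ p ∈ Q, 1 / (p : ℝ) ≤ C * (Real.log (Real.log l) / Real.log l) := by
  obtain ⟨C, hC0, hC⟩ := Pool.Agent.Helper923.HMertens.mertens_ratio
  refine ⟨2 * C + 12, by positivity, fun l w hl hl3 hw Q hQ => ?_⟩
  rcases Q.eq_empty_or_nonempty with hQe | ⟨q, hq⟩
  · rw [hQe, sum_empty]
    have h1 : 0 < Real.log l := Real.log_pos (by linarith)
    positivity
  obtain ⟨a, ha⟩ : ∃ a : ℕ, a = ⌊l⌋₊ := ⟨_, rfl⟩
  have hl0 : 0 < l := by linarith
  have ha4 : 4 ≤ a := by rw [ha]; exact Nat.le_floor (by exact_mod_cast hl)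
  have hal : (a : ℝ) ≤ l := by rw [ha]; exact Nat.floor_le hl0.le
  have hla : l < a + 1 := by rw [ha]; exact Nat.lt_floor_add_one l
  have ha4r : (4 : ℝ) ≤ a := by exact_mod_cast ha4
  have hl2a : l ≤ 2 * a := by linarith
  have hqw := (hQ q hq).2.2
  have hlq := (hQ q hq).2.1
  have haw : a ≤ w := by
    have : (a : ℝ) < q := lt_of_le_of_lt hal hlq
    have h2 : a < q := by exact_mod_cast this
    omega
  have h1 := (abs_le.1 (hC a w (by omega) haw)).2
  have h2 : ∑ p ∈ Q, 1 / (p : ℝ) ≤ ∑ p ∈ (Ioc a w).filter Nat.Prime, (1 : ℝ) / p :=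
    sum_le_sum_of_subset_of_nonneg (fun p hp => by
      obtain ⟨h3, h4, h5⟩ := hQ p hp
      refine mem_filter.2 ⟨mem_Ioc.2 ⟨?_, h5⟩, h3⟩
      exact_mod_cast lt_of_le_of_lt hal h4) fun p _ _ => by positivity
  have hll : 0 < Real.log l := Real.log_pos (by linarith)
  have hl2 : Real.log 2 ≤ 1 := by
    have := Real.log_le_sub_one_of_pos (show (0 : ℝ) < 2 by norm_num)
    linarith
  have hll2 : 2 ≤ Real.log l := by
    have h3 : Real.exp 1 ≤ Real.log l := by
      rwa [Real.le_log_iff_exp_le hll] at hl3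
    have := Real.exp_one_gt_d9
    linarith
  have hla2 : Real.log l ≤ Real.log 2 + Real.log a := by
    rw [← Real.log_mul (by norm_num) (by positivity)]
    exact Real.log_le_log hl0 hl2a
  have hla3 : Real.log l / 2 ≤ Real.log a := by linarith
  have hla0 : 0 < Real.log a := by linarith
  have hw0 : (0 : ℝ) < w := by
    have : (0 : ℝ) < a := by linarith
    exact lt_of_lt_of_le this (by exact_mod_cast haw)
  have hlw : Real.log w ≤ Real.log l + 4 * Real.log (Real.log l) := by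
    have h3 : Real.log w ≤ Real.log (l * Real.log l ^ 4) := Real.log_le_log hw0 hw
    rw [Real.log_mul hl0.ne' (by positivity), Real.log_pow] at h3
    exact_mod_cast h3
  have hlw0 : 0 < Real.log w :=
    lt_of_lt_of_le hla0 (Real.log_le_log (by linarith) (by exact_mod_cast haw))
  have h3 : Real.log (Real.log w / Real.log a) ≤
      (4 * Real.log (Real.log l) + 1) / Real.log a := by
    have h4 := Real.log_le_sub_one_of_pos (show 0 < Real.log w / Real.log a by positivity)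
    refine h4.trans ?_
    rw [div_sub_one hla0.ne']
    exact div_le_div_of_nonneg_right (by linarith) hla0.le
  have h4 : (4 * Real.log (Real.log l) + 1) / Real.log a + C / Real.log a ≤
      (2 * C + 12) * (Real.log (Real.log l) / Real.log l) := by
    rw [← add_div, ← mul_div_assoc, div_le_div_iff₀ hla0 hll]
    have h5 : 4 * Real.log (Real.log l) + 1 + C ≤ (C + 6) * Real.log (Real.log l) := by nlinarith
    have h6 : 0 ≤ (2 * C + 12) * Real.log (Real.log l) := by positivity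
    calc (4 * Real.log (Real.log l) + 1 + C) * Real.log l ≤
          (C + 6) * Real.log (Real.log l) * Real.log l := mul_le_mul_of_nonneg_right h5 hll.le
      _ = (2 * C + 12) * Real.log (Real.log l) * (Real.log l / 2) := by ring
      _ ≤ _ := mul_le_mul_of_nonneg_left hla3 h6
  linarith

theorem min_half {a b s : ℝ} (ha : 0 ≤ a) (hs0 : 0 ≤ s) (hs : s ≤ 1) (hb : s * a ≤ b) :
    s * min 1 a ≤ min 1 b := by
  refine le_min ?_ ?_
  · calc s * min 1 a ≤ 1 * 1 := mul_le_mul hs (min_le_left _ _) (le_min zero_le_one ha) zero_le_one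
      _ = 1 := one_mul 1
  · exact (mul_le_mul_of_nonneg_left (min_le_right _ _) hs0).trans hb

open Classical in
theorem main : ∃ (c C R0 : ℝ), 0 < c ∧ 0 < C ∧ ∀ (R : ℝ) (U z : ℕ), R0 ≤ R → Real.log R ≤ U →
    2 ≤ z → (z : ℝ) ≤ Real.log R ^ c → ∀ θ : ℝ,
    θ = min 1 (Real.log (U / Real.log R) / Real.log (Real.log R)) *
      min 1 (Real.log (U / Real.log R) / Real.log z) →
    C * Real.log (Real.log (Real.log R)) ≤ θ * Real.log (Real.log R) →
    ∀ P : Finset ℕ, (∀ p ∈ P, p.Prime) →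
    ∀ (I : Finset ℕ) (d : ℕ → ℕ) (f : ℕ → ℕ → ℝ),
    (∀ i ∈ I, 0 < d i ∧ (d i : ℝ) ≤ R ∧ Function.Periodic (f i) (d i)) → ∀ N : ℕ, 0 < N →
    (∀ p ∈ P, p ∣ N) → (∀ i ∈ I, d i ∣ N) →
    (∀ n : ℕ, (∑ i ∈ I, f i n) ≠ 0 →
      ∑ p ∈ P.filter (fun p : ℕ => z < p ∧ (p : ℝ) ≤ Real.log R ∧ ¬ p ∣ n), 1 / (p : ℝ) ≤ c * θ) →
    c * θ * (U * V P) * ∑ n ∈ range N, (∑ i ∈ I, f i n) ^ 2 ≤
      ∑ n ∈ range N, (∑ i ∈ I, f i n) ^ 2 *
        (((Icc 1 U).filter (fun h => ∀ p ∈ P, ¬ p ∣ n + h)).card : ℝ) := by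
  obtain ⟨c1, C1, Y1, hc1, hC1, HE⟩ := partE
  obtain ⟨C3, hC3, HM3⟩ := mid_sum
  obtain ⟨cM, hcM, HM⟩ := prod_ge
  obtain ⟨C4, hC4, HI⟩ := sum_inv_le
  obtain ⟨C, hCd⟩ : ∃ C : ℝ, C = max 10 (16 * C3 / c1) := ⟨_, rfl⟩
  have hC10 : 10 ≤ C := by rw [hCd]; exact le_max_left _ _
  have hCC3 : 16 * C3 / c1 ≤ C := by rw [hCd]; exact le_max_right _ _
  have hC0 : 0 < C := by linarith
  obtain ⟨c, hcd⟩ : ∃ c : ℝ, c = c1 / 16 := ⟨_, rfl⟩
  have hc0 : 0 < c := by rw [hcd]; positivity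
  -- conditions on `R`
  have hL1 : Filter.Tendsto Real.log Filter.atTop Filter.atTop := Real.tendsto_log_atTop
  have hL2 := hL1.comp hL1
  have hL3 := hL1.comp hL2
  have hlo : Filter.Tendsto (fun x : ℝ => x - 4 * Real.log x) Filter.atTop Filter.atTop := by
    have h1 : Filter.Tendsto (fun x : ℝ => x / 2) Filter.atTop Filter.atTop :=
      Filter.tendsto_id.atTop_div_const (by norm_num)
    refine Filter.tendsto_atTop_mono' _ ?_ h1
    have h2 := Real.isLittleO_log_id_atTop.def (show (0 : ℝ) < 1 / 8 by norm_num)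
    filter_upwards [h2, Filter.eventually_ge_atTop (1 : ℝ)] with x hx hx1
    rw [id, Real.norm_of_nonneg (Real.log_nonneg hx1), Real.norm_of_nonneg (by linarith)] at hx
    linarith
  obtain ⟨R0, hR0⟩ := Filter.eventually_atTop.1 ((hL1.eventually_ge_atTop (max 4 (Y1 + 1 : ℝ))).and
    ((hL2.eventually_ge_atTop (max 1 (max C1 (2560 * (C4 + 2) / (c1 * cM ^ 2))))).and
    ((hL3.eventually_ge_atTop 1).and ((hlo.comp hL2).eventually_ge_atTop 0))))
  refine ⟨c, C, max R0 2, hc0, hC0, ?_⟩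
  intro R U z hR hUR hz hzR θ hθ hCθ P hP I d f hf N hN hPN hIN hsupp
  obtain ⟨r1, r2, r3, r4⟩ := hR0 R ((le_max_left _ _).trans hR)
  have hR2 : 2 ≤ R := (le_max_right _ _).trans hR
  simp only [Function.comp_apply, max_le_iff] at r1 r2 r3 r4
  obtain ⟨l, hl⟩ : ∃ l : ℝ, l = Real.log R := ⟨_, rfl⟩
  rw [← hl] at r1 r2 r3 r4 hUR hzR hθ hCθ hsupp
  obtain ⟨x, hx⟩ : ∃ x : ℝ, x = Real.log l := ⟨_, rfl⟩
  rw [← hx] at r2 r3 r4 hθ hCθ
  obtain ⟨l4, lY⟩ := r1
  obtain ⟨x1, xC1, xM⟩ := r2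
  obtain ⟨W, hW⟩ : ∃ W : ℝ, W = l * x ^ 4 := ⟨_, rfl⟩
  obtain ⟨w, hw⟩ : ∃ w : ℕ, w = ⌊W⌋₊ := ⟨_, rfl⟩
  have hl0 : 0 < l := by linarith
  have hx0 : 0 < x := by linarith
  have hlx0 : 0 < Real.log x := by linarith
  have hx2 : 2 ≤ x := by
    have h3 : Real.exp 1 ≤ x := by rwa [Real.le_log_iff_exp_le hx0] at r3
    have := Real.exp_one_gt_d9
    linarith
  have hx4 : 16 ≤ x ^ 4 := by nlinarith [sq_nonneg (x ^ 2 - 4), sq_nonneg (x - 2)]
  have hWl : 16 * l ≤ W := by rw [hW]; nlinarith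
  have hW0 : 0 < W := by linarith
  have hwW : (w : ℝ) ≤ W := by rw [hw]; exact Nat.floor_le hW0.le
  have hWw : W < w + 1 := by rw [hw]; exact Nat.lt_floor_add_one W
  have hlw : l ≤ w := by linarith
  have hw0 : (0 : ℝ) < w := by linarith
  have hwY : Y1 ≤ w := by
    have : (Y1 : ℝ) ≤ w := by linarith
    exact_mod_cast this
  have hlogW : Real.log W = x + 4 * Real.log x := by
    rw [hW, Real.log_mul hl0.ne' (by positivity), Real.log_pow, ← hx]
    push_cast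
    ring
  have hlww : Real.log w ≤ 2 * x := by
    have h1 : Real.log w ≤ Real.log W := Real.log_le_log hw0 hwW
    rw [hlogW] at h1
    linarith
  have hxw : x ≤ Real.log w := by rw [hx]; exact Real.log_le_log hl0 hlw
  have hlw0 : 0 < Real.log w := by linarith
  have hlz : 0 < Real.log z := Real.log_pos (by exact_mod_cast (by omega : 1 < z))
  -- the quantity `a = log (U / l)`
  obtain ⟨a, ha⟩ : ∃ a : ℝ, a = Real.log (U / l) := ⟨_, rfl⟩
  rw [← ha] at hθ
  have hUl : 1 ≤ (U : ℝ) / l := by rw [le_div_iff₀ hl0]; linarith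
  have ha0 : 0 ≤ a := by rw [ha]; exact Real.log_nonneg hUl
  have hm1 : 0 ≤ min 1 (a / x) := le_min zero_le_one (by positivity)
  have hm2 : 0 ≤ min 1 (a / Real.log z) := le_min zero_le_one (by positivity)
  have hθ0' : 0 < θ * x := lt_of_lt_of_le (by positivity) hCθ
  have hθ0 : 0 < θ := (mul_pos_iff_of_pos_right hx0).1 hθ0'
  have hθa : θ * x ≤ a := by
    have h1 : θ ≤ a / x := by
      rw [hθ]
      calc _ ≤ (a / x) * 1 := mul_le_mul (min_le_right _ _) (min_le_left _ _) hm2 (by positivity)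
        _ = _ := mul_one _
    rwa [le_div_iff₀ hx0] at h1
  have haC : C * Real.log x ≤ a := hCθ.trans hθa
  have ha10 : 10 * Real.log x ≤ a := by nlinarith
  have hU0 : (0 : ℝ) < U := lt_of_lt_of_le hl0 hUR
  have hUx : l * x ^ 10 ≤ U := by
    have h1 : Real.log (x ^ 10) ≤ Real.log (U / l) := by
      rw [Real.log_pow, ← ha]
      exact_mod_cast ha10
    have h2 : x ^ 10 ≤ U / l := (Real.log_le_log_iff (by positivity) (by positivity)).1 h1
    rw [le_div_iff₀ hl0] at h2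
    linarith
  have hx6 : x ≤ x ^ 6 := le_self_pow₀ (by linarith) (by norm_num)
  have hUW : x * W ≤ U := by
    refine le_trans ?_ hUx
    calc x * W = l * x ^ 4 * x := by rw [hW]; ring
      _ ≤ l * x ^ 4 * x ^ 6 := mul_le_mul_of_nonneg_left hx6 (by positivity)
      _ = l * x ^ 10 := by ring
  have hUW1 : W ≤ U := by nlinarith
  have hUw : C1 * w ≤ U := by
    calc C1 * (w : ℝ) ≤ x * W := mul_le_mul xC1 hwW hw0.le hx0.le
      _ ≤ U := hUW
  have hzw : (z : ℝ) ≤ (w : ℝ) ^ c1 := by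
    refine hzR.trans ?_
    calc l ^ c ≤ l ^ c1 := Real.rpow_le_rpow_of_exponent_le (by linarith) (by rw [hcd]; linarith)
      _ ≤ (w : ℝ) ^ c1 := Real.rpow_le_rpow hl0.le hlw hc1.le
  -- comparison of the two `θ`
  obtain ⟨b, hb⟩ : ∃ b : ℝ, b = Real.log ((U : ℝ) / w) := ⟨_, rfl⟩
  have hba : a / 2 ≤ b := by
    have h1 : Real.log (U / W) ≤ b := by
      rw [hb]
      refine Real.log_le_log (by positivity) ?_
      exact div_le_div_of_nonneg_left hU0.le hw0 hwW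
    have h2 : Real.log (U / W) = a - 4 * Real.log x := by
      rw [Real.log_div hU0.ne' hW0.ne', hlogW, ha, Real.log_div hU0.ne' hl0.ne', ← hx]
      ring
    rw [h2] at h1
    linarith
  obtain ⟨φ, hφ⟩ : ∃ φ : ℝ, φ = min 1 (Real.log ((U : ℝ) / w) / Real.log w) *
      min 1 (Real.log ((U : ℝ) / w) / Real.log z) := ⟨_, rfl⟩
  have hθφ : θ / 8 ≤ φ := by
    rw [hφ, ← hb, hθ]
    have h1 : (1 / 4 : ℝ) * min 1 (a / x) ≤ min 1 (b / Real.log w) := by
      refine min_half (by positivity) (by norm_num) (by norm_num) ?_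
      rw [← mul_div_assoc, div_le_div_iff₀ hx0 hlw0]
      calc 1 / 4 * a * Real.log w ≤ 1 / 4 * a * (2 * x) :=
            mul_le_mul_of_nonneg_left hlww (by positivity)
        _ = a / 2 * x := by ring
        _ ≤ b * x := mul_le_mul_of_nonneg_right hba hx0.le
    have h2 : (1 / 2 : ℝ) * min 1 (a / Real.log z) ≤ min 1 (b / Real.log z) := by
      refine min_half (by positivity) (by norm_num) (by norm_num) ?_
      rw [← mul_div_assoc]
      exact div_le_div_of_nonneg_right (by linarith) hlz.le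
    calc min 1 (a / x) * min 1 (a / Real.log z) / 8 =
          (1 / 4 * min 1 (a / x)) * (1 / 2 * min 1 (a / Real.log z)) := by ring
      _ ≤ _ := mul_le_mul h1 h2 (by positivity) (le_trans (by positivity) h1)
  have hφ0 : 0 < φ := lt_of_lt_of_le (by positivity) hθφ
  -- the pointwise bound
  obtain ⟨S, hS⟩ : ∃ S : Finset ℕ, S = P.filter (fun p : ℕ => (p : ℝ) ≤ W) := ⟨_, rfl⟩
  obtain ⟨Q, hQ⟩ : ∃ Q : Finset ℕ, Q = P.filter (fun p : ℕ => W < (p : ℝ)) := ⟨_, rfl⟩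
  have hSw : ∀ p ∈ S, p.Prime ∧ p ≤ w := fun p hp => by
    rw [hS, mem_filter] at hp
    exact ⟨hP p hp.1, by rw [hw]; exact Nat.le_floor hp.2⟩
  obtain ⟨σ, hσd⟩ : ∃ σ : ℝ, σ = c1 * φ * (U * V S) := ⟨_, rfl⟩
  have hσ : ∀ n : ℕ, (∑ i ∈ I, f i n) ≠ 0 → σ ≤ (((Icc 1 U).filter (fun h =>
      ∀ p ∈ P.filter (fun p : ℕ => (p : ℝ) ≤ W), ¬ p ∣ n + h)).card : ℝ) := by
    intro n hn
    have h1 := HE w U z n S hwY hUw hz hzw hSw φ hφ (by
      have h2 : S.filter (fun p : ℕ => z < p ∧ ¬ (p : ℤ) ∣ n) ⊆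
          P.filter (fun p : ℕ => z < p ∧ (p : ℝ) ≤ l ∧ ¬ p ∣ n) ∪
          S.filter (fun p : ℕ => l < (p : ℝ)) := by
        intro p hp
        rw [mem_filter] at hp
        rw [mem_union, mem_filter, mem_filter]
        rcases le_or_gt (p : ℝ) l with h3 | h3
        · left
          refine ⟨?_, hp.2.1, h3, fun h4 => hp.2.2 (by exact_mod_cast h4)⟩
          have h5 := hp.1
          rw [hS] at h5
          exact (mem_filter.1 h5).1
        · exact Or.inr ⟨hp.1, h3⟩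
      have h3 : ∑ p ∈ S.filter (fun p : ℕ => z < p ∧ ¬ (p : ℤ) ∣ n), 1 / (p : ℝ) ≤
          ∑ p ∈ P.filter (fun p : ℕ => z < p ∧ (p : ℝ) ≤ l ∧ ¬ p ∣ n), 1 / (p : ℝ) +
          ∑ p ∈ S.filter (fun p : ℕ => l < (p : ℝ)), 1 / (p : ℝ) := by
        refine (sum_le_sum_of_subset_of_nonneg h2 fun _ _ _ => by positivity).trans ?_
        rw [← sum_union_inter]
        have h4 : 0 ≤ ∑ p ∈ P.filter (fun p : ℕ => z < p ∧ (p : ℝ) ≤ l ∧ ¬ p ∣ n) ∩
          S.filter (fun p : ℕ => l < (p : ℝ)), 1 / (p : ℝ) := sum_nonneg fun _ _ => by positivity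
        linarith
      have h4 := hsupp n hn
      have h5 := HM3 l w l4 (by rw [← hx]; exact r3) (by rw [← hx, ← hW]; exact hwW)
        (S.filter (fun p : ℕ => l < (p : ℝ))) (fun p hp => by
          rw [mem_filter] at hp
          exact ⟨(hSw p hp.1).1, hp.2, (hSw p hp.1).2⟩)
      rw [← hx] at h5
      have h6 : C3 * (Real.log x / x) ≤ c1 / 16 * θ := by
        rw [← mul_div_assoc, div_le_iff₀ hx0]
        have h7 : 16 * C3 / c1 * Real.log x ≤ θ * x :=
          (mul_le_mul_of_nonneg_right hCC3 hlx0.le).trans hCθ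
        have h8 := mul_le_mul_of_nonneg_left h7 (by positivity : 0 ≤ c1 / 16)
        calc C3 * Real.log x = c1 / 16 * (16 * C3 / c1 * Real.log x) := by field_simp
          _ ≤ c1 / 16 * (θ * x) := h8
          _ = c1 / 16 * θ * x := by ring
      rw [hcd] at h4
      have h9 : c1 * (θ / 8) ≤ c1 * φ := mul_le_mul_of_nonneg_left hθφ hc1.le
      linarith)
    rw [hσd]
    refine h1.trans (le_of_eq ?_)
    rw [hS]
    congr 2
    refine filter_congr fun h _ => forall₂_congr fun p hp => not_congr ?_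
    exact_mod_cast Iff.rfl
  -- the other conditions of `core_supp`
  have hVS : cM / (2 * x) ≤ V S := by
    have h1 := HM w (by
      have : (2 : ℝ) ≤ w := by linarith
      exact_mod_cast this) S hSw
    refine le_trans ?_ h1
    exact div_le_div_of_nonneg_left hcM.le hlw0 hlww
  have hVS0 : 0 < V S := lt_of_lt_of_le (by positivity) hVS
  have hΛ : ∑ p ∈ (P.filter (fun p : ℕ => W < (p : ℝ))).filter (fun p : ℕ => (p : ℝ) ≤ R),
      1 / (p : ℝ) ≤ (C4 + 2) * x := by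
    have h2 : 2 ≤ ⌊R⌋₊ := Nat.le_floor (by exact_mod_cast hR2)
    have h1 := HI ⌊R⌋₊ h2
      ((P.filter (fun p : ℕ => W < (p : ℝ))).filter (fun p : ℕ => (p : ℝ) ≤ R))
      (fun p hp => ⟨hP p (mem_filter.1 (mem_filter.1 hp).1).1, Nat.le_floor (mem_filter.1 hp).2⟩)
    refine h1.trans ?_
    have h3 : (⌊R⌋₊ : ℝ) ≤ R := Nat.floor_le (by linarith)
    have h4 : (2 : ℝ) ≤ (⌊R⌋₊ : ℝ) := by exact_mod_cast h2
    have h5 : 0 < Real.log (⌊R⌋₊ : ℝ) := Real.log_pos (by linarith)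
    have h6 : Real.log (⌊R⌋₊ : ℝ) ≤ l := by rw [hl]; exact Real.log_le_log (by linarith) h3
    have h7 : Real.log (Real.log (⌊R⌋₊ : ℝ)) ≤ x := by rw [hx]; exact Real.log_le_log h5 h6
    nlinarith
  have hmain : 5 * ((C4 + 2) * x) / (1 / 4) * (1 / cM) * (U / W + 1) * Real.log R ≤
      1 / 4 * σ := by
    rw [← hl]
    have h1 : (U : ℝ) / W + 1 ≤ 2 * (U / W) := by
      have : 1 ≤ (U : ℝ) / W := by rw [le_div_iff₀ hW0]; linarith
      linarith
    have h2 : 5 * ((C4 + 2) * x) / (1 / 4) * (1 / cM) * (U / W + 1) * l ≤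
        5 * ((C4 + 2) * x) / (1 / 4) * (1 / cM) * (2 * (U / W)) * l := by
      have : 0 ≤ 5 * ((C4 + 2) * x) / (1 / 4) * (1 / cM) := by positivity
      gcongr
    refine h2.trans ?_
    have h3 : 1 / x ≤ θ := by
      rw [div_le_iff₀ hx0]
      nlinarith
    have h4 : 1 / 4 * (c1 * (1 / x / 8) * (U * (cM / (2 * x)))) ≤ 1 / 4 * σ := by
      rw [hσd]
      have h5 : 1 / x / 8 ≤ φ := le_trans (by linarith) hθφ
      gcongr
    refine le_trans ?_ h4
    have e1 : 5 * ((C4 + 2) * x) / (1 / 4) * (1 / cM) * (2 * (U / W)) * l =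
        2560 * (C4 + 2) / (c1 * cM ^ 2) * (c1 * cM * U / (64 * x ^ 3)) := by
      rw [hW]
      field_simp
      norm_num
    have e2 : 1 / 4 * (c1 * (1 / x / 8) * (U * (cM / (2 * x)))) =
        x * (c1 * cM * U / (64 * x ^ 3)) := by
      field_simp
      norm_num
    rw [e1, e2]
    exact mul_le_mul_of_nonneg_right xM (by positivity)
  have h := core_supp hcM HM (R := R) (η := 1 / 4) (Λ := (C4 + 2) * x) (by norm_num) (by norm_num)
    (by linarith : 1 ≤ W) (by nlinarith) hP hΛ hmain I d f hf hN hPN hIN hσ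
  refine le_trans ?_ h
  have hSS : 0 ≤ ∑ n ∈ range N, (∑ i ∈ I, f i n) ^ 2 := sum_nonneg fun _ _ => sq_nonneg _
  refine mul_le_mul_of_nonneg_right ?_ hSS
  have e3 : V P = V S * V Q := by
    unfold V
    rw [← prod_filter_mul_prod_filter_not P (fun p : ℕ => (p : ℝ) ≤ W), hS, hQ]
    congr 1
    refine prod_congr ?_ fun _ _ => rfl
    exact filter_congr fun p _ => not_le
  have hVQ : 0 < V Q := V_pos fun p hp => by
    rw [hQ] at hp
    exact hP p (mem_filter.1 hp).1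
  have e4 : ∏ p ∈ P.filter (fun p : ℕ => W < (p : ℝ)), (1 - 1 / (p : ℝ)) = V Q := by
    rw [hQ]; rfl
  rw [e3, e4, hσd, hcd]
  calc c1 / 16 * θ * (U * (V S * V Q)) = (1 / 2) * (c1 * (θ / 8) * (U * V S)) * V Q := by ring
    _ ≤ (1 / 2) * (c1 * φ * (U * V S)) * V Q := by gcongr
    _ = (1 - 2 * (1 / 4)) * (c1 * φ * (U * V S)) * V Q := by ring

end Pool.Agent.Y835.SD
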